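import Mathlib

set_option autoImplicit false

/-! Matchings between two permutations that split into few order-isomorphic classes. -/

namespace Pool.Agent.Helper82.Sim

open Finset

variable {n : ℕ}

/-- Two matched pairs are ordered in the same way, both in position and in value. -/
def Cons (σ π : Equiv.Perm (Fin n)) (e f : Fin n × Fin n) : Prop :=
  (e.1 < f.1 ↔ e.2 < f.2) ∧ (σ e.1 < σ f.1 ↔ π e.2 < π f.2)

/-- The positions `P` of `σ` can be matched with the positions `Q` of `π` using `k` classes. -/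
def Dec (σ π : Equiv.Perm (Fin n)) (k : ℕ) (P Q : Finset (Fin n)) : Prop :=
  ∃ (R : Finset (Fin n × Fin n)) (c : Fin n × Fin n → ℕ),
    R.image Prod.fst = P ∧ R.image Prod.snd = Q ∧
    (∀ e ∈ R, ∀ f ∈ R, e.1 = f.1 → e = f) ∧ (∀ e ∈ R, ∀ f ∈ R, e.2 = f.2 → e = f) ∧
    (∀ e ∈ R, c e < k) ∧ ∀ e ∈ R, ∀ f ∈ R, c e = c f → Cons σ π e f

lemma Dec.empty (σ π : Equiv.Perm (Fin n)) : Dec σ π 0 ∅ ∅ :=
  ⟨∅, fun _ => 0, by simp, by simp, by simp, by simp, by simp, by simp⟩

lemma Dec.mono {σ π : Equiv.Perm (Fin n)} {k l : ℕ} {P Q : Finset (Fin n)} (h : Dec σ π k P Q)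
    (hkl : k ≤ l) : Dec σ π l P Q := by
  obtain ⟨R, c, h1, h2, h3, h4, h5, h6⟩ := h
  exact ⟨R, c, h1, h2, h3, h4, fun e he => lt_of_lt_of_le (h5 e he) hkl, h6⟩

lemma Dec.card_eq {σ π : Equiv.Perm (Fin n)} {k : ℕ} {P Q : Finset (Fin n)} (h : Dec σ π k P Q) :
    P.card = Q.card := by
  obtain ⟨R, c, h1, h2, h3, h4, h5, h6⟩ := h
  rw [← h1, ← h2, Finset.card_image_of_injOn, Finset.card_image_of_injOn]
  · intro e he f hf hef
    exact h4 e he f hf hef
  · intro e he f hf hef
    exact h3 e he f hf hef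

lemma Dec.union {σ π : Equiv.Perm (Fin n)} {k l : ℕ} {P Q P' Q' : Finset (Fin n)}
    (h : Dec σ π k P Q) (h' : Dec σ π l P' Q') (hP : Disjoint P P') (hQ : Disjoint Q Q') :
    Dec σ π (k + l) (P ∪ P') (Q ∪ Q') := by
  classical
  obtain ⟨R, c, h1, h2, h3, h4, h5, h6⟩ := h
  obtain ⟨R', c', h1', h2', h3', h4', h5', h6'⟩ := h'
  have key1 : ∀ e ∈ R, ∀ f ∈ R', e.1 ≠ f.1 := by
    intro e he f hf hef
    have a1 : e.1 ∈ P := h1 ▸ Finset.mem_image_of_mem Prod.fst he
    have a2 : f.1 ∈ P' := h1' ▸ Finset.mem_image_of_mem Prod.fst hf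
    exact Finset.disjoint_left.mp hP a1 (hef ▸ a2)
  have key2 : ∀ e ∈ R, ∀ f ∈ R', e.2 ≠ f.2 := by
    intro e he f hf hef
    have a1 : e.2 ∈ Q := h2 ▸ Finset.mem_image_of_mem Prod.snd he
    have a2 : f.2 ∈ Q' := h2' ▸ Finset.mem_image_of_mem Prod.snd hf
    exact Finset.disjoint_left.mp hQ a1 (hef ▸ a2)
  refine ⟨R ∪ R', fun e => if e ∈ R then c e else k + c' e, ?_, ?_, ?_, ?_, ?_, ?_⟩
  · rw [Finset.image_union, h1, h1']
  · rw [Finset.image_union, h2, h2']
  · intro e he f hf hef
    rw [Finset.mem_union] at he hf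
    rcases he with he | he <;> rcases hf with hf | hf
    · exact h3 e he f hf hef
    · exact absurd hef (key1 e he f hf)
    · exact absurd hef.symm (key1 f hf e he)
    · exact h3' e he f hf hef
  · intro e he f hf hef
    rw [Finset.mem_union] at he hf
    rcases he with he | he <;> rcases hf with hf | hf
    · exact h4 e he f hf hef
    · exact absurd hef (key2 e he f hf)
    · exact absurd hef.symm (key2 f hf e he)
    · exact h4' e he f hf hef
  · intro e he
    rw [Finset.mem_union] at he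
    by_cases h : e ∈ R
    · simp only [h, if_true]
      have := h5 e h
      omega
    · simp only [h, if_false]
      have := h5' e (he.resolve_left h)
      omega
  · intro e he f hf hef
    rw [Finset.mem_union] at he hf
    by_cases h : e ∈ R <;> by_cases h' : f ∈ R
    · simp only [h, h', if_true] at hef
      exact h6 e h f h' hef
    · simp only [h, h', if_true, if_false] at hef
      have := h5 e h
      omega
    · simp only [h, h', if_true, if_false] at hef
      have := h5 f h'
      omega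
    · simp only [h, h', if_false] at hef
      exact h6' e (he.resolve_left h) f (hf.resolve_left h') (by omega)

lemma Dec.of_iso {σ π : Equiv.Perm (Fin n)} {M : Finset (Fin n × Fin n)}
    (hM : ∀ e ∈ M, ∀ f ∈ M, Cons σ π e f) :
    Dec σ π 1 (M.image Prod.fst) (M.image Prod.snd) := by
  refine ⟨M, fun _ => 0, rfl, rfl, ?_, ?_, by simp, fun e he f hf _ => hM e he f hf⟩
  · intro e he f hf hef
    have a := (hM e he f hf).1
    have b := (hM f hf e he).1
    refine Prod.ext hef ?_
    rw [hef] at a b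
    have a' : ¬ e.2 < f.2 := fun h => lt_irrefl _ (a.mpr h)
    have b' : ¬ f.2 < e.2 := fun h => lt_irrefl _ (b.mpr h)
    exact le_antisymm (not_lt.mp b') (not_lt.mp a')
  · intro e he f hf hef
    have a := (hM e he f hf).1
    have b := (hM f hf e he).1
    refine Prod.ext ?_ hef
    rw [hef] at a b
    have a' : ¬ e.1 < f.1 := fun h => lt_irrefl _ (a.mp h)
    have b' : ¬ f.1 < e.1 := fun h => lt_irrefl _ (b.mp h)
    exact le_antisymm (not_lt.mp b') (not_lt.mp a')

lemma Dec.swap {σ π : Equiv.Perm (Fin n)} {k : ℕ} {P Q : Finset (Fin n)} (h : Dec σ π k P Q) :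
    Dec π σ k Q P := by
  classical
  obtain ⟨R, c, h1, h2, h3, h4, h5, h6⟩ := h
  refine ⟨R.image Prod.swap, fun e => c e.swap, ?_, ?_, ?_, ?_, ?_, ?_⟩
  · rw [Finset.image_image, ← h2]; rfl
  · rw [Finset.image_image, ← h1]; rfl
  · intro e he f hf hef
    obtain ⟨e', he', rfl⟩ := Finset.mem_image.mp he
    obtain ⟨f', hf', rfl⟩ := Finset.mem_image.mp hf
    rw [h4 e' he' f' hf' hef]
  · intro e he f hf hef
    obtain ⟨e', he', rfl⟩ := Finset.mem_image.mp he
    obtain ⟨f', hf', rfl⟩ := Finset.mem_image.mp hf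
    rw [h3 e' he' f' hf' hef]
  · intro e he
    obtain ⟨e', he', rfl⟩ := Finset.mem_image.mp he
    simpa using h5 e' he'
  · intro e he f hf hef
    obtain ⟨e', he', rfl⟩ := Finset.mem_image.mp he
    obtain ⟨f', hf', rfl⟩ := Finset.mem_image.mp hf
    have := h6 e' he' f' hf' (by simpa using hef)
    exact ⟨this.1.symm, this.2.symm⟩

lemma Dec.singles (σ π : Equiv.Perm (Fin n)) : ∀ (k : ℕ) (P Q : Finset (Fin n)), P.card = k →
    Q.card = k → Dec σ π k P Q := by
  classical
  intro k
  induction k with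
  | zero =>
    intro P Q hP hQ
    rw [Finset.card_eq_zero] at hP hQ
    subst hP; subst hQ
    exact Dec.empty σ π
  | succ k ih =>
    intro P Q hP hQ
    obtain ⟨p, hp⟩ : P.Nonempty := Finset.card_pos.mp (by omega)
    obtain ⟨q, hq⟩ : Q.Nonempty := Finset.card_pos.mp (by omega)
    have h1 := ih (P.erase p) (Q.erase q) (by rw [Finset.card_erase_of_mem hp]; omega)
      (by rw [Finset.card_erase_of_mem hq]; omega)
    have h2 : Dec σ π 1 (Finset.image Prod.fst ({((p, q) : Fin n × Fin n)} : Finset (Fin n × Fin n)))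
        (Finset.image Prod.snd ({((p, q) : Fin n × Fin n)} : Finset (Fin n × Fin n))) := by
      apply Dec.of_iso
      intro e he f hf
      rw [Finset.mem_singleton] at he hf
      subst he; subst hf
      exact ⟨by simp, by simp⟩
    have h3 := h1.union h2 (by simp) (by simp)
    simp only [Finset.image_singleton] at h3
    have e1 : P.erase p ∪ {p} = P := by
      ext x
      simp only [Finset.mem_union, Finset.mem_erase, Finset.mem_singleton]
      constructor
      · rintro (⟨_, h⟩ | rfl)
        · exact h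
        · exact hp
      · intro h
        by_cases hx : x = p
        · exact Or.inr hx
        · exact Or.inl ⟨hx, h⟩
    have e2 : Q.erase q ∪ {q} = Q := by
      ext x
      simp only [Finset.mem_union, Finset.mem_erase, Finset.mem_singleton]
      constructor
      · rintro (⟨_, h⟩ | rfl)
        · exact h
        · exact hq
      · intro h
        by_cases hx : x = q
        · exact Or.inr hx
        · exact Or.inl ⟨hx, h⟩
    rw [e1, e2] at h3
    exact h3

/-- From a decomposition of everything to the colouring and the bijection of the statement. -/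
lemma Dec.final {σ π : Equiv.Perm (Fin n)} {k K : ℕ} (h : Dec σ π k univ univ) (hk : k ≤ K) :
    ∃ c : Fin n → Fin K, ∃ g : Equiv.Perm (Fin n), ∀ a a' : Fin n, c a = c a' →
      ((a < a' ↔ g a < g a') ∧ (σ a < σ a' ↔ π (g a) < π (g a'))) := by
  classical
  obtain ⟨R, c, h1, h2, h3, h4, h5, h6⟩ := h
  have ex : ∀ a : Fin n, ∃ e ∈ R, e.1 = a := by
    intro a
    have : a ∈ R.image Prod.fst := by rw [h1]; exact Finset.mem_univ a
    obtain ⟨e, he, hea⟩ := Finset.mem_image.mp this
    exact ⟨e, he, hea⟩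
  choose F hFR hF using ex
  have hinj : Function.Injective fun a => (F a).2 := by
    intro a b hab
    have := h4 (F a) (hFR a) (F b) (hFR b) hab
    rw [← hF a, ← hF b, this]
  let g : Equiv.Perm (Fin n) := Equiv.ofBijective (fun a => (F a).2)
    ((Finite.injective_iff_bijective).mp hinj)
  refine ⟨fun a => ⟨c (F a), lt_of_lt_of_le (h5 _ (hFR a)) hk⟩, g, ?_⟩
  intro a a' haa
  have h7 : c (F a) = c (F a') := by simpa using haa
  have h8 := h6 (F a) (hFR a) (F a') (hFR a') h7
  rw [Cons, hF a, hF a'] at h8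
  exact h8

/-- Repeated extraction of classes of size at least `κ`. -/
lemma loop {σ π : Equiv.Perm (Fin n)} {A₀ S₀ : Finset (Fin n)} {α β κ : ℕ}
    (hext : ∀ A ⊆ A₀, ∀ S ⊆ S₀, α ≤ A.card → β ≤ S.card →
      ∃ M : Finset (Fin n × Fin n), (∀ e ∈ M, ∀ f ∈ M, Cons σ π e f) ∧
        M.image Prod.fst ⊆ A ∧ M.image Prod.snd ⊆ S ∧ κ ≤ M.card) :
    ∀ (k : ℕ) (A S : Finset (Fin n)), A ⊆ A₀ → S ⊆ S₀ → S.card < β + k * κ →
      ∃ A' ⊆ A, ∃ S' ⊆ S, Dec σ π k (A \ A') (S \ S') ∧ (A'.card < α ∨ S'.card < β) := by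
  classical
  intro k
  induction k with
  | zero =>
    intro A S hA hS hc
    refine ⟨A, subset_rfl, S, subset_rfl, ?_, Or.inr (by omega)⟩
    rw [Finset.sdiff_self, Finset.sdiff_self]
    exact Dec.empty σ π
  | succ k ih =>
    intro A S hA hS hc
    by_cases h1 : A.card < α
    · refine ⟨A, subset_rfl, S, subset_rfl, ?_, Or.inl h1⟩
      rw [Finset.sdiff_self, Finset.sdiff_self]
      exact (Dec.empty σ π).mono (Nat.zero_le _)
    by_cases h2 : S.card < β
    · refine ⟨A, subset_rfl, S, subset_rfl, ?_, Or.inr h2⟩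
      rw [Finset.sdiff_self, Finset.sdiff_self]
      exact (Dec.empty σ π).mono (Nat.zero_le _)
    obtain ⟨M, hM, hMA, hMS, hMc⟩ := hext A hA S hS (not_lt.mp h1) (not_lt.mp h2)
    have hD := Dec.of_iso hM
    have hcard : (M.image Prod.snd).card = M.card := by
      apply Finset.card_image_of_injOn
      intro e he f hf hef
      have a := (hM e he f hf).1
      have b := (hM f hf e he).1
      refine Prod.ext ?_ hef
      rw [hef] at a b
      have a' : ¬ e.1 < f.1 := fun h => lt_irrefl _ (a.mp h)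
      have b' : ¬ f.1 < e.1 := fun h => lt_irrefl _ (b.mp h)
      exact le_antisymm (not_lt.mp b') (not_lt.mp a')
    have hS1 : (S \ M.image Prod.snd).card < β + k * κ := by
      rw [Finset.card_sdiff_of_subset hMS, hcard]
      have : M.card ≤ S.card := by rw [← hcard]; exact Finset.card_le_card hMS
      have e : (k + 1) * κ = k * κ + κ := by ring
      omega
    obtain ⟨A', hA', S', hS', hdec, hor⟩ := ih (A \ M.image Prod.fst) (S \ M.image Prod.snd)
      (Finset.sdiff_subset.trans hA) (Finset.sdiff_subset.trans hS) hS1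
    refine ⟨A', hA'.trans Finset.sdiff_subset, S', hS'.trans Finset.sdiff_subset, ?_, hor⟩
    have hu := hD.union hdec (by
        rw [Finset.disjoint_left]
        intro x hx hx'
        exact (Finset.mem_sdiff.mp (Finset.mem_sdiff.mp hx').1).2 hx) (by
        rw [Finset.disjoint_left]
        intro x hx hx'
        exact (Finset.mem_sdiff.mp (Finset.mem_sdiff.mp hx').1).2 hx)
    have e1 : M.image Prod.fst ∪ ((A \ M.image Prod.fst) \ A') = A \ A' := by
      ext x
      simp only [Finset.mem_union, Finset.mem_sdiff]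
      constructor
      · rintro (h | ⟨⟨h, _⟩, h'⟩)
        · refine ⟨hMA h, fun h' => ?_⟩
          exact (Finset.mem_sdiff.mp (hA' h')).2 h
        · exact ⟨h, h'⟩
      · rintro ⟨h, h'⟩
        by_cases hx : x ∈ M.image Prod.fst
        · exact Or.inl hx
        · exact Or.inr ⟨⟨h, hx⟩, h'⟩
    have e2 : M.image Prod.snd ∪ ((S \ M.image Prod.snd) \ S') = S \ S' := by
      ext x
      simp only [Finset.mem_union, Finset.mem_sdiff]
      constructor
      · rintro (h | ⟨⟨h, _⟩, h'⟩)
        · refine ⟨hMS h, fun h' => ?_⟩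
          exact (Finset.mem_sdiff.mp (hS' h')).2 h
        · exact ⟨h, h'⟩
      · rintro ⟨h, h'⟩
        by_cases hx : x ∈ M.image Prod.snd
        · exact Or.inl hx
        · exact Or.inr ⟨⟨h, hx⟩, h'⟩
    rw [e1, e2] at hu
    rwa [add_comm k 1]

end Pool.Agent.Helper82.Sim
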