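import Mathlib

set_option autoImplicit false

/-! Counting permutations with many coincidences. -/

namespace Pool.Agent.Helper82.Sim

open Finset Nat

variable {n : ℕ}

lemma card_agree (K : Finset (Fin n)) (g : Fin n → Fin n) :
    (univ.filter (fun σ : Equiv.Perm (Fin n) => ∀ x ∈ K, σ x = g x)).card ≤ (n - K.card)! := by
  classical
  rcases (univ.filter (fun σ : Equiv.Perm (Fin n) => ∀ x ∈ K, σ x = g x)).eq_empty_or_nonempty
    with he | ⟨σ0, hσ0⟩
  · rw [he]; simp
  rw [Finset.mem_filter] at hσ0
  have h1 : Fintype.card {f : Equiv.Perm (Fin n) // ∀ a, ¬ (a ∉ K) → f a = a} = (n - K.card)! := by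
    rw [← Fintype.card_congr (Equiv.Perm.subtypeEquivSubtypePerm (fun a => a ∉ K)), Fintype.card_perm]
    congr 1
    rw [Fintype.card_subtype_compl, Fintype.card_fin]
    congr 1
    exact Fintype.card_coe K
  rw [← h1, ← Finset.card_univ (α := {f : Equiv.Perm (Fin n) // ∀ a, ¬ (a ∉ K) → f a = a})]
  apply Finset.card_le_card_of_injOn (fun σ => if h : (∀ a, ¬ (a ∉ K) → (σ0⁻¹ * σ) a = a) then
    (⟨σ0⁻¹ * σ, h⟩ : {f : Equiv.Perm (Fin n) // ∀ a, ¬ (a ∉ K) → f a = a}) else ⟨1, by simp⟩)
  · intro σ _
    simp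
  · have key : ∀ σ ∈ (univ.filter (fun σ : Equiv.Perm (Fin n) => ∀ x ∈ K, σ x = g x)),
        (∀ a, ¬ (a ∉ K) → (σ0⁻¹ * σ) a = a) := by
      intro σ hσ a ha
      rw [Finset.mem_filter] at hσ
      rw [not_not] at ha
      rw [Equiv.Perm.mul_apply, hσ.2 a ha, ← hσ0.2 a ha]
      exact Equiv.symm_apply_apply σ0 a
    intro σ hσ τ hτ hst
    have k1 := key σ hσ
    have k2 := key τ hτ
    have hst' := hst
    dsimp only at hst'
    rw [dif_pos k1, dif_pos k2] at hst'
    exact mul_left_cancel (Subtype.ext_iff.mp hst')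

lemma card_maps_into (K F : Finset (Fin n)) :
    (univ.filter (fun σ : Equiv.Perm (Fin n) => ∀ x ∈ K, σ x ∈ F)).card ≤
      F.card ^ K.card * (n - K.card)! := by
  classical
  let f : Equiv.Perm (Fin n) → (Fin n → Fin n) := fun σ x => if x ∈ K then σ x else x
  let B : Finset (Fin n → Fin n) := Fintype.piFinset (fun x => if x ∈ K then F else {x})
  have hB : B.card = F.card ^ K.card := by
    simp only [B, Fintype.card_piFinset]
    rw [← Finset.prod_subset (Finset.subset_univ K)]
    · rw [Finset.prod_congr rfl (g := fun _ => F.card)]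
      · simp
      · intro x hx; simp [hx]
    · intro x _ hx; simp [hx]
  rw [← hB, mul_comm]
  apply Finset.card_le_mul_card_image_of_maps_to (f := f)
  · intro σ hσ
    rw [Finset.mem_filter] at hσ
    simp only [B, Fintype.mem_piFinset, f]
    intro x
    by_cases hx : x ∈ K
    · simp [hx, hσ.2 x hx]
    · simp [hx]
  · intro g _
    refine le_trans (Finset.card_le_card ?_) (card_agree K g)
    intro σ hσ
    rw [Finset.mem_filter] at hσ
    rw [Finset.mem_filter]
    refine ⟨Finset.mem_univ _, fun x hx => ?_⟩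
    rw [← hσ.2]
    simp [f, hx]

lemma card_hits (I F : Finset (Fin n)) (m : ℕ) :
    (univ.filter (fun σ : Equiv.Perm (Fin n) => m ≤ (I.filter (fun x => σ x ∈ F)).card)).card ≤
      I.card.choose m * (F.card ^ m * (n - m)!) := by
  classical
  have hsub : (univ.filter (fun σ : Equiv.Perm (Fin n) => m ≤ (I.filter (fun x => σ x ∈ F)).card)) ⊆
      (I.powersetCard m).biUnion (fun K => univ.filter (fun σ : Equiv.Perm (Fin n) => ∀ x ∈ K, σ x ∈ F)) := by
    intro σ hσ
    rw [Finset.mem_filter] at hσ
    obtain ⟨K, hK, hKc⟩ := Finset.exists_subset_card_eq hσ.2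
    rw [Finset.mem_biUnion]
    refine ⟨K, ?_, ?_⟩
    · rw [Finset.mem_powersetCard]
      exact ⟨hK.trans (Finset.filter_subset _ _), hKc⟩
    · rw [Finset.mem_filter]
      exact ⟨Finset.mem_univ _, fun x hx => (Finset.mem_filter.mp (hK hx)).2⟩
  refine (Finset.card_le_card hsub).trans ?_
  rw [← Finset.card_powersetCard]
  apply Finset.card_biUnion_le_card_mul
  intro K hK
  rw [Finset.mem_powersetCard] at hK
  have := card_maps_into K F
  rwa [hK.2] at this

/-- pairwise disjoint pairs -/
def DisjPairs (P : Finset (Fin n × Fin n)) : Prop :=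
  (∀ e ∈ P, e.1 ≠ e.2) ∧
  ∀ e ∈ P, ∀ f ∈ P, e ≠ f → e.1 ≠ f.1 ∧ e.1 ≠ f.2 ∧ e.2 ≠ f.1 ∧ e.2 ≠ f.2

lemma card_pairs (P : Finset (Fin n × Fin n)) (hP : DisjPairs P) (F : Fin n → Finset (Fin n)) (w : ℕ)
    (hF : ∀ v, (F v).card ≤ w) :
    (univ.filter (fun σ : Equiv.Perm (Fin n) => ∀ e ∈ P, σ e.2 ∈ F (σ e.1))).card ≤
      (n * w) ^ P.card * (n - 2 * P.card)! := by
  classical
  let f : Equiv.Perm (Fin n) → (Fin n × Fin n → Fin n × Fin n) :=
    fun σ e => if e ∈ P then (σ e.1, σ e.2) else e
  let Q : Finset (Fin n × Fin n) := univ.filter (fun p => p.2 ∈ F p.1)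
  have hQ : Q.card ≤ n * w := by
    have h1 : Q.card ≤ w * (univ : Finset (Fin n)).card := by
      apply Finset.card_le_mul_card_image_of_maps_to (f := Prod.fst)
      · intro p _; simp
      · intro v _
        refine le_trans ?_ (hF v)
        apply Finset.card_le_card_of_injOn Prod.snd
        · intro p hp
          simp only [Q, Finset.mem_coe, Finset.mem_filter, Finset.mem_univ, true_and] at hp
          rw [← hp.2]
          exact hp.1
        · intro p hp p' hp' hpp
          simp only [Finset.mem_coe, Finset.mem_filter] at hp hp'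
          exact Prod.ext (hp.2.trans hp'.2.symm) hpp
    rw [Finset.card_univ, Fintype.card_fin] at h1
    rw [mul_comm]; exact h1
  let B : Finset (Fin n × Fin n → Fin n × Fin n) := Fintype.piFinset (fun e => if e ∈ P then Q else {e})
  have hB : B.card = Q.card ^ P.card := by
    simp only [B, Fintype.card_piFinset]
    rw [← Finset.prod_subset (Finset.subset_univ P)]
    · rw [Finset.prod_congr rfl (g := fun _ => Q.card)]
      · simp
      · intro x hx; simp [hx]
    · intro x _ hx; simp [hx]
  have h1 : (univ.filter (fun σ : Equiv.Perm (Fin n) => ∀ e ∈ P, σ e.2 ∈ F (σ e.1))).card ≤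
      (n - 2 * P.card)! * B.card := by
    apply Finset.card_le_mul_card_image_of_maps_to (f := f)
    · intro σ hσ
      rw [Finset.mem_filter] at hσ
      simp only [B, Fintype.mem_piFinset, f]
      intro e
      by_cases he : e ∈ P
      · simp only [he, if_true, Q, Finset.mem_filter, Finset.mem_univ, true_and]
        exact hσ.2 e he
      · simp [he]
    · intro g _
      rcases ((univ.filter (fun σ : Equiv.Perm (Fin n) => ∀ e ∈ P, σ e.2 ∈ F (σ e.1))).filter
        (fun σ => f σ = g)).eq_empty_or_nonempty with he | ⟨σ0, hσ0⟩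
      · rw [he]; simp
      rw [Finset.mem_filter] at hσ0
      have hK : (P.image Prod.fst ∪ P.image Prod.snd).card = 2 * P.card := by
        rw [Finset.card_union_of_disjoint, Finset.card_image_of_injOn, Finset.card_image_of_injOn]
        · ring
        · intro e he f hf hef
          by_contra hne
          exact (hP.2 e he f hf hne).2.2.2 hef
        · intro e he f hf hef
          by_contra hne
          exact (hP.2 e he f hf hne).1 hef
        · rw [Finset.disjoint_left]
          intro x hx hx'
          obtain ⟨e, he, rfl⟩ := Finset.mem_image.mp hx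
          obtain ⟨f', hf, hfe⟩ := Finset.mem_image.mp hx'
          by_cases hef : e = f'
          · subst hef
            exact hP.1 e he hfe.symm
          · exact (hP.2 e he f' hf hef).2.1 hfe.symm
      rw [← hK]
      refine le_trans (Finset.card_le_card ?_) (card_agree _ σ0)
      intro σ hσ
      rw [Finset.mem_filter] at hσ
      rw [Finset.mem_filter]
      refine ⟨Finset.mem_univ _, fun x hx => ?_⟩
      have hfg : f σ = f σ0 := hσ.2.trans hσ0.2.symm
      rw [Finset.mem_union] at hx
      rcases hx with hx | hx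
      · obtain ⟨e, he, rfl⟩ := Finset.mem_image.mp hx
        have := congrFun hfg e
        simp only [f, he, if_true, Prod.mk.injEq] at this
        exact this.1
      · obtain ⟨e, he, rfl⟩ := Finset.mem_image.mp hx
        have := congrFun hfg e
        simp only [f, he, if_true, Prod.mk.injEq] at this
        exact this.2
  calc _ ≤ (n - 2 * P.card)! * B.card := h1
    _ = Q.card ^ P.card * (n - 2 * P.card)! := by rw [hB, mul_comm]
    _ ≤ (n * w) ^ P.card * (n - 2 * P.card)! :=
        Nat.mul_le_mul_right _ (Nat.pow_le_pow_left hQ _)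

/-- A set of pairs with bounded degrees contains many disjoint pairs. -/
lemma exists_disjPairs (d : ℕ) (m : ℕ) : ∀ (G : Finset (Fin n × Fin n)), (∀ e ∈ G, e.1 ≠ e.2) →
    (∀ x, (G.filter (fun e => e.1 = x)).card ≤ d) → (∀ x, (G.filter (fun e => e.2 = x)).card ≤ d) →
    4 * d * m < G.card → ∃ P ⊆ G, P.card = m + 1 ∧ DisjPairs P := by
  classical
  induction m with
  | zero =>
    intro G hG h1 h2 hc
    obtain ⟨e, he⟩ : G.Nonempty := Finset.card_pos.mp (by omega)
    refine ⟨{e}, by simpa using he, by simp, ?_, ?_⟩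
    · intro f hf
      rw [Finset.mem_singleton] at hf
      subst hf
      exact hG f he
    · intro f hf f' hf' hne
      rw [Finset.mem_singleton] at hf hf'
      exact absurd (hf.trans hf'.symm) hne
  | succ m ih =>
    intro G hG h1 h2 hc
    obtain ⟨e, he⟩ : G.Nonempty := Finset.card_pos.mp (by omega)
    let G' := G.filter (fun f => e.1 ≠ f.1 ∧ e.1 ≠ f.2 ∧ e.2 ≠ f.1 ∧ e.2 ≠ f.2)
    have hG' : G.card ≤ G'.card + 4 * d := by
      have hsub : G ⊆ G' ∪ ((G.filter (fun f => f.1 = e.1) ∪ G.filter (fun f => f.2 = e.1)) ∪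
          (G.filter (fun f => f.1 = e.2) ∪ G.filter (fun f => f.2 = e.2))) := by
        intro f hf
        simp only [G', Finset.mem_union, Finset.mem_filter]
        by_cases a1 : e.1 = f.1
        · exact Or.inr (Or.inl (Or.inl ⟨hf, a1.symm⟩))
        by_cases a2 : e.1 = f.2
        · exact Or.inr (Or.inl (Or.inr ⟨hf, a2.symm⟩))
        by_cases a3 : e.2 = f.1
        · exact Or.inr (Or.inr (Or.inl ⟨hf, a3.symm⟩))
        by_cases a4 : e.2 = f.2
        · exact Or.inr (Or.inr (Or.inr ⟨hf, a4.symm⟩))
        exact Or.inl ⟨hf, a1, a2, a3, a4⟩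
      have b0 := Finset.card_le_card hsub
      have b1 := Finset.card_union_le G' ((G.filter (fun f => f.1 = e.1) ∪ G.filter (fun f => f.2 = e.1)) ∪
          (G.filter (fun f => f.1 = e.2) ∪ G.filter (fun f => f.2 = e.2)))
      have b2 := Finset.card_union_le (G.filter (fun f => f.1 = e.1) ∪ G.filter (fun f => f.2 = e.1))
          (G.filter (fun f => f.1 = e.2) ∪ G.filter (fun f => f.2 = e.2))
      have b3 := Finset.card_union_le (G.filter (fun f => f.1 = e.1)) (G.filter (fun f => f.2 = e.1))
      have b4 := Finset.card_union_le (G.filter (fun f => f.1 = e.2)) (G.filter (fun f => f.2 = e.2))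
      have c1 := h1 e.1; have c2 := h2 e.1; have c3 := h1 e.2; have c4 := h2 e.2
      omega
    obtain ⟨P, hPG, hPc, hPd⟩ := ih G' (fun f hf => hG f (Finset.mem_filter.mp hf).1)
      (fun x => (Finset.card_le_card (Finset.filter_subset_filter _ (Finset.filter_subset _ _))).trans (h1 x))
      (fun x => (Finset.card_le_card (Finset.filter_subset_filter _ (Finset.filter_subset _ _))).trans (h2 x))
      (by
        have : 4 * d * (m + 1) = 4 * d * m + 4 * d := by ring
        omega)
    have heP : e ∉ P := by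
      intro heP
      exact (Finset.mem_filter.mp (hPG heP)).2.1 rfl
    refine ⟨insert e P, ?_, ?_, ?_, ?_⟩
    · intro f hf
      rw [Finset.mem_insert] at hf
      rcases hf with rfl | hf
      · exact he
      · exact (Finset.mem_filter.mp (hPG hf)).1
    · rw [Finset.card_insert_of_notMem heP, hPc]
    · intro f hf
      rw [Finset.mem_insert] at hf
      rcases hf with rfl | hf
      · exact hG f he
      · exact hPd.1 f hf
    · intro f hf f' hf' hne
      rw [Finset.mem_insert] at hf hf'
      rcases hf with rfl | hf <;> rcases hf' with rfl | hf'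
      · exact absurd rfl hne
      · have := (Finset.mem_filter.mp (hPG hf')).2
        exact this
      · have := (Finset.mem_filter.mp (hPG hf)).2
        exact ⟨fun h => this.1 h.symm, fun h => this.2.2.1 h.symm, fun h => this.2.1 h.symm,
          fun h => this.2.2.2 h.symm⟩
      · exact hPd.2 f hf f' hf' hne

open Classical in
/-- Few permutations have many disjoint coincidences. -/
lemma card_many_pairs (P : Finset (Fin n × Fin n)) (F : Fin n → Finset (Fin n)) (w m : ℕ)
    (hF : ∀ v, (F v).card ≤ w) :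
    (univ.filter (fun σ : Equiv.Perm (Fin n) => ∃ Q ⊆ P, Q.card = m ∧ DisjPairs Q ∧
      ∀ e ∈ Q, σ e.2 ∈ F (σ e.1))).card ≤ P.card.choose m * ((n * w) ^ m * (n - 2 * m)!) := by
  classical
  have hsub : (univ.filter (fun σ : Equiv.Perm (Fin n) => ∃ Q ⊆ P, Q.card = m ∧ DisjPairs Q ∧
      ∀ e ∈ Q, σ e.2 ∈ F (σ e.1))) ⊆
      (P.powersetCard m).biUnion (fun Q => univ.filter (fun σ : Equiv.Perm (Fin n) =>
        DisjPairs Q ∧ ∀ e ∈ Q, σ e.2 ∈ F (σ e.1))) := by
    intro σ hσ
    rw [Finset.mem_filter] at hσ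
    obtain ⟨_, Q, hQP, hQc, hQd, hQ⟩ := hσ
    rw [Finset.mem_biUnion]
    refine ⟨Q, Finset.mem_powersetCard.mpr ⟨hQP, hQc⟩, ?_⟩
    rw [Finset.mem_filter]
    exact ⟨Finset.mem_univ _, hQd, hQ⟩
  refine (Finset.card_le_card hsub).trans ?_
  rw [← Finset.card_powersetCard]
  apply Finset.card_biUnion_le_card_mul
  intro Q hQ
  rw [Finset.mem_powersetCard] at hQ
  by_cases hd : DisjPairs Q
  · have := card_pairs Q hd F w hF
    rw [hQ.2] at this
    refine le_trans (Finset.card_le_card ?_) this
    intro σ hσ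
    rw [Finset.mem_filter] at hσ ⊢
    exact ⟨hσ.1, hσ.2.2⟩
  · have : (univ.filter (fun σ : Equiv.Perm (Fin n) =>
        DisjPairs Q ∧ ∀ e ∈ Q, σ e.2 ∈ F (σ e.1))) = ∅ := by
      apply Finset.filter_eq_empty_iff.mpr
      intro σ _ h
      exact hd h.1
    rw [this]
    simp

end Pool.Agent.Helper82.Sim
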