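import Pool.Agent.Helper82.SimBasic

set_option autoImplicit false

/-! Extraction of a large order-isomorphic class. -/

namespace Pool.Agent.Helper82.Sim

open Finset

variable {n : ℕ}

/-- rank of `q` in `S` with respect to the key `key` -/
def rk (key : Fin n → ℕ) (S : Finset (Fin n)) (q : Fin n) : ℕ := (S.filter (fun r => key r < key q)).card

/-- strip index of `q`: a combination of the rank in `S` and the position -/
def idx (key : Fin n → ℕ) (S : Finset (Fin n)) (h w : ℕ) (q : Fin n) : ℕ := rk key S q / h + key q / w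

lemma rk_mono {key : Fin n → ℕ} {S : Finset (Fin n)} {q r : Fin n} (h : key q ≤ key r) :
    rk key S q ≤ rk key S r := by
  apply Finset.card_le_card
  intro x hx
  rw [Finset.mem_filter] at hx ⊢
  exact ⟨hx.1, by omega⟩

lemma rk_lt {key : Fin n → ℕ} {S : Finset (Fin n)} {q r : Fin n} (hq : q ∈ S) (h : key q < key r) :
    rk key S q < rk key S r := by
  apply Finset.card_lt_card
  rw [Finset.ssubset_iff_of_subset]
  · exact ⟨q, by simp [hq, h], by simp⟩
  · intro x hx
    rw [Finset.mem_filter] at hx ⊢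
    exact ⟨hx.1, by omega⟩

lemma rk_lt_card {key : Fin n → ℕ} {S : Finset (Fin n)} {q : Fin n} (hq : q ∈ S) :
    rk key S q < S.card := by
  apply Finset.card_lt_card
  rw [Finset.ssubset_iff_of_subset (Finset.filter_subset _ _)]
  exact ⟨q, hq, by simp⟩

lemma idx_mono {key : Fin n → ℕ} {S : Finset (Fin n)} {h w : ℕ} {q r : Fin n} (hqr : key q ≤ key r) :
    idx key S h w q ≤ idx key S h w r :=
  Nat.add_le_add (Nat.div_le_div_right (rk_mono hqr)) (Nat.div_le_div_right hqr)

lemma idx_eq {key : Fin n → ℕ} {S : Finset (Fin n)} {h w : ℕ} {q r : Fin n}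
    (e : idx key S h w q = idx key S h w r) :
    rk key S q / h = rk key S r / h ∧ key q / w = key r / w := by
  rcases le_total (key q) (key r) with hqr | hqr
  · have h1 := Nat.div_le_div_right (c := h) (rk_mono (S := S) hqr)
    have h2 := Nat.div_le_div_right (c := w) hqr
    unfold idx at e
    omega
  · have h1 := Nat.div_le_div_right (c := h) (rk_mono (S := S) hqr)
    have h2 := Nat.div_le_div_right (c := w) hqr
    unfold idx at e
    omega

lemma idx_fiber {key : Fin n → ℕ} (hkey : Function.Injective key) {S : Finset (Fin n)} {h w : ℕ}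
    (hh : 0 < h) {S0 : Finset (Fin n)} (hS0 : S0 ⊆ S) (u : ℕ) :
    (S0.filter (fun q => idx key S h w q = u)).card ≤ h := by
  classical
  rcases (S0.filter (fun q => idx key S h w q = u)).eq_empty_or_nonempty with he | ⟨q0, hq0⟩
  · rw [he]; simp
  set c := rk key S q0 / h with hc
  have h1 : ∀ q ∈ S0.filter (fun q => idx key S h w q = u), rk key S q / h = c := by
    intro q hq
    rw [Finset.mem_filter] at hq hq0
    exact (idx_eq (hq.2.trans hq0.2.symm)).1
  have h2 : ((S0.filter (fun q => idx key S h w q = u)).image (rk key S)) ⊆ Finset.Ico (c * h) (c * h + h) := by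
    intro r hr
    obtain ⟨q, hq, rfl⟩ := Finset.mem_image.mp hr
    have := h1 q hq
    rw [Finset.mem_Ico]
    constructor
    · rw [← this]; exact Nat.div_mul_le_self _ _
    · rw [← this]
      have := Nat.lt_div_mul_add hh (a := rk key S q)
      omega
  have h3 := Finset.card_le_card h2
  rw [Nat.card_Ico, Finset.card_image_of_injOn] at h3
  · omega
  · intro q hq r hr hqr
    have hq' : q ∈ S := hS0 (Finset.mem_filter.mp hq).1
    have hr' : r ∈ S := hS0 (Finset.mem_filter.mp hr).1
    by_contra hne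
    rcases lt_trichotomy (key q) (key r) with h | h | h
    · exact absurd hqr (rk_lt hq' h).ne
    · exact hne (hkey h)
    · exact absurd hqr (rk_lt hr' h).ne'

lemma idx_lt {key : Fin n → ℕ} {S : Finset (Fin n)} {T h w : ℕ} {q : Fin n} (hq : q ∈ S)
    (hh : 0 < h) (hw : 0 < w) (hS : S.card ≤ h * T) (hk : key q < T * w) :
    idx key S h w q < 2 * T := by
  have h1 : rk key S q / h < T := by
    rw [Nat.div_lt_iff_lt_mul hh]
    have := rk_lt_card (key := key) hq
    calc rk key S q < S.card := this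
      _ ≤ h * T := hS
      _ = T * h := by ring
  have h2 : key q / w < T := by
    rw [Nat.div_lt_iff_lt_mul hw]
    exact hk
  unfold idx
  omega

/-- Counting conflicts in one coordinate. -/
lemma conf_bound {A S0 X : Finset (Fin n)} {D h : ℕ} (a b : Fin n → ℕ) (a' b' : Fin n → ℕ)
    (hAX : A ⊆ X)
    (hD : ∀ δ : ℤ, ((X ×ˢ X).filter (fun p => p.1 ≠ p.2 ∧ a p.1 = a p.2 ∧
        ((b p.2 : ℕ) : ℤ) - ((b p.1 : ℕ) : ℤ) = δ)).card ≤ D)
    (hfib : ∀ u, (S0.filter (fun q => a' q = u)).card ≤ h) :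
    (((A ×ˢ S0) ×ˢ (A ×ˢ S0)).filter (fun ef => ef.1.1 ≠ ef.2.1 ∧ a ef.1.1 = a ef.2.1 ∧
      a' ef.1.2 = a' ef.2.2 ∧
      ((b ef.2.1 : ℕ) : ℤ) - ((b ef.1.1 : ℕ) : ℤ) = ((b' ef.2.2 : ℕ) : ℤ) - ((b' ef.1.2 : ℕ) : ℤ))).card
      ≤ D * (h * S0.card) := by
  classical
  set C := (((A ×ˢ S0) ×ˢ (A ×ˢ S0)).filter (fun ef => ef.1.1 ≠ ef.2.1 ∧ a ef.1.1 = a ef.2.1 ∧
      a' ef.1.2 = a' ef.2.2 ∧
      ((b ef.2.1 : ℕ) : ℤ) - ((b ef.1.1 : ℕ) : ℤ) = ((b' ef.2.2 : ℕ) : ℤ) - ((b' ef.1.2 : ℕ) : ℤ))) with hC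
  let QQ := (S0 ×ˢ S0).filter (fun p => a' p.1 = a' p.2)
  have h1 : C.card ≤ D * QQ.card := by
    apply Finset.card_le_mul_card_image_of_maps_to (f := fun ef => (ef.1.2, ef.2.2))
    · intro ef hef
      rw [hC, Finset.mem_filter, Finset.mem_product, Finset.mem_product, Finset.mem_product] at hef
      simp only [QQ, Finset.mem_filter, Finset.mem_product]
      exact ⟨⟨hef.1.1.2, hef.1.2.2⟩, hef.2.2.2.1⟩
    · rintro ⟨q, q'⟩ _
      refine le_trans ?_ (hD (((b' q' : ℕ) : ℤ) - ((b' q : ℕ) : ℤ)))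
      apply Finset.card_le_card_of_injOn (fun ef => (ef.1.1, ef.2.1))
      · intro ef hef
        rw [Finset.mem_coe, Finset.mem_filter, hC, Finset.mem_filter, Finset.mem_product,
          Finset.mem_product, Finset.mem_product] at hef
        obtain ⟨⟨⟨⟨m1, m2⟩, m3, m4⟩, hne, ha, ha', hb⟩, heq⟩ := hef
        rw [Prod.mk.injEq] at heq
        rw [Finset.mem_coe, Finset.mem_filter, Finset.mem_product]
        refine ⟨⟨hAX m1, hAX m3⟩, hne, ha, ?_⟩
        rw [hb, heq.1, heq.2]
      · intro ef hef gh hgh heq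
        rw [Finset.mem_coe, Finset.mem_filter] at hef hgh
        have e1 := hef.2
        have e2 := hgh.2
        rw [Prod.mk.injEq] at e1 e2 heq
        refine Prod.ext (Prod.ext heq.1 ?_) (Prod.ext heq.2 ?_)
        · rw [e1.1, e2.1]
        · rw [e1.2, e2.2]
  have h2 : QQ.card ≤ h * S0.card := by
    apply Finset.card_le_mul_card_image_of_maps_to (f := Prod.fst)
    · intro p hp
      simp only [QQ, Finset.mem_filter, Finset.mem_product] at hp
      exact hp.1.1
    · intro q _
      refine le_trans ?_ (hfib (a' q))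
      apply Finset.card_le_card_of_injOn Prod.snd
      · intro p hp
        simp only [QQ, Finset.mem_coe, Finset.mem_filter, Finset.mem_product] at hp
        simp only [Finset.mem_coe, Finset.mem_filter]
        refine ⟨hp.1.1.2, ?_⟩
        rw [← hp.1.2, hp.2]
      · intro p hp p' hp' hpp
        simp only [QQ, Finset.mem_coe, Finset.mem_filter, Finset.mem_product] at hp hp'
        exact Prod.ext (hp.2.trans hp'.2.symm) hpp
  exact h1.trans (Nat.mul_le_mul_left _ h2)

theorem extract {T w h D L : ℕ} (σ π : Equiv.Perm (Fin n)) (X A S W : Finset (Fin n))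
    (hw : 0 < w) (hTw : n ≤ T * w) (hh : 0 < h) (hS : S.card ≤ h * T)
    (hAX : A ⊆ X) (hSW : S ⊆ W)
    (hL : ∀ u v : ℕ, (W.filter (fun q => q.val / w = u ∧ (π q).val / w = v)).card ≤ L)
    (hDx : ∀ δ : ℤ, ((X ×ˢ X).filter (fun p => p.1 ≠ p.2 ∧ p.1.val / w = p.2.val / w ∧
        (((σ p.2).val / w : ℕ) : ℤ) - (((σ p.1).val / w : ℕ) : ℤ) = δ)).card ≤ D)
    (hDy : ∀ δ : ℤ, ((X ×ˢ X).filter (fun p => p.1 ≠ p.2 ∧ (σ p.1).val / w = (σ p.2).val / w ∧
        ((p.2.val / w : ℕ) : ℤ) - ((p.1.val / w : ℕ) : ℤ) = δ)).card ≤ D)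
    (hbig : 4 * D * h ≤ A.card) :
    ∃ M : Finset (Fin n × Fin n), (∀ e ∈ M, ∀ f ∈ M, Cons σ π e f) ∧
      M.image Prod.fst ⊆ A ∧ M.image Prod.snd ⊆ S ∧
      A.card * S.card ≤ 18 * T ^ 2 * L * M.card := by
  classical
  -- indices
  let kx : Fin n → ℕ := fun q => q.val
  let ky : Fin n → ℕ := fun q => (π q).val
  have hkx : Function.Injective kx := fun a b hab => Fin.ext hab
  have hky : Function.Injective ky := fun a b hab => π.injective (Fin.ext hab)
  let i : Fin n → ℕ := fun p => p.val / w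
  let j : Fin n → ℕ := fun p => (σ p).val / w
  let i' : Fin n → ℕ := idx kx S h w
  let j' : Fin n → ℕ := idx ky S h w
  have hi : ∀ p, i p < T := fun p => by
    simp only [i]
    rw [Nat.div_lt_iff_lt_mul hw]
    exact lt_of_lt_of_le p.isLt hTw
  have hj : ∀ p, j p < T := fun p => by
    simp only [j]
    rw [Nat.div_lt_iff_lt_mul hw]
    exact lt_of_lt_of_le (σ p).isLt hTw
  have hi' : ∀ q ∈ S, i' q < 2 * T := fun q hq =>
    idx_lt hq hh hw hS (lt_of_lt_of_le q.isLt hTw)
  have hj' : ∀ q ∈ S, j' q < 2 * T := fun q hq =>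
    idx_lt hq hh hw hS (lt_of_lt_of_le (π q).isLt hTw)
  -- representatives
  obtain ⟨S0, hS0S, hS0inj, hS0card⟩ : ∃ S0 ⊆ S, (∀ q ∈ S0, ∀ r ∈ S0, i' q = i' r → j' q = j' r → q = r) ∧
      S.card ≤ L * S0.card := by
    have hsurj : Set.SurjOn (fun q => (i' q, j' q)) (S : Set (Fin n))
        ((S.image (fun q => (i' q, j' q)) : Finset (ℕ × ℕ)) : Set (ℕ × ℕ)) := by
      intro b hb
      rw [Finset.coe_image] at hb
      exact hb
    obtain ⟨S0, hS0, hinj, himg⟩ := Finset.exists_subset_injOn_image_eq_of_surjOn _ _ hsurj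
    refine ⟨S0, by exact_mod_cast hS0, ?_, ?_⟩
    · intro q hq r hr h1 h2
      exact hinj hq hr (by simp only [Prod.mk.injEq]; exact ⟨h1, h2⟩)
    · have hcard : S0.card = (S.image (fun q => (i' q, j' q))).card := by
        rw [← himg, Finset.card_image_of_injOn hinj]
      rw [hcard]
      apply Finset.card_le_mul_card_image
      rintro ⟨u, v⟩ hb
      obtain ⟨q0, hq0, hq0'⟩ := Finset.mem_image.mp hb
      rw [Prod.mk.injEq] at hq0'
      refine le_trans ?_ (hL (q0.val / w) ((π q0).val / w))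
      apply Finset.card_le_card
      intro q hq
      rw [Finset.mem_filter, Prod.mk.injEq] at hq
      rw [Finset.mem_filter]
      refine ⟨hSW hq.1, ?_, ?_⟩
      · exact (idx_eq (key := kx) (S := S) (h := h) (w := w) (hq.2.1.trans hq0'.1.symm)).2
      · exact (idx_eq (key := ky) (S := S) (h := h) (w := w) (hq.2.2.trans hq0'.2.symm)).2
  -- pairs
  let E := A ×ˢ S0
  let disp : Fin n × Fin n → ℕ × ℕ := fun e => (i' e.2 + T - i e.1, j' e.2 + T - j e.1)
  let bad : Fin n × Fin n → Prop := fun e => ∃ f ∈ E, f ≠ e ∧ disp f = disp e ∧ (i f.1 = i e.1 ∨ j f.1 = j e.1)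
  let CX := (E ×ˢ E).filter (fun ef => ef.1.1 ≠ ef.2.1 ∧ i ef.1.1 = i ef.2.1 ∧
      i' ef.1.2 = i' ef.2.2 ∧
      ((j ef.2.1 : ℕ) : ℤ) - ((j ef.1.1 : ℕ) : ℤ) = ((j' ef.2.2 : ℕ) : ℤ) - ((j' ef.1.2 : ℕ) : ℤ))
  let CY := (E ×ˢ E).filter (fun ef => ef.1.1 ≠ ef.2.1 ∧ j ef.1.1 = j ef.2.1 ∧
      j' ef.1.2 = j' ef.2.2 ∧
      ((i ef.2.1 : ℕ) : ℤ) - ((i ef.1.1 : ℕ) : ℤ) = ((i' ef.2.2 : ℕ) : ℤ) - ((i' ef.1.2 : ℕ) : ℤ))
  have hCX : CX.card ≤ D * (h * S0.card) :=
    conf_bound i j i' j' hAX hDx (fun u => idx_fiber hkx hh hS0S u)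
  have hCY : CY.card ≤ D * (h * S0.card) :=
    conf_bound j i j' i' hAX hDy (fun u => idx_fiber hky hh hS0S u)
  have hdisp : ∀ e f, disp f = disp e →
      ((i' f.2 : ℤ) - i f.1 = (i' e.2 : ℤ) - i e.1) ∧ ((j' f.2 : ℤ) - j f.1 = (j' e.2 : ℤ) - j e.1) := by
    intro e f hef
    simp only [disp, Prod.mk.injEq] at hef
    have := hi e.1; have := hi f.1; have := hj e.1; have := hj f.1
    omega
  have hbad : (E.filter bad).card ≤ CX.card + CY.card := by
    have hsub : E.filter bad ⊆ (CX ∪ CY).image Prod.fst := by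
      intro e he
      rw [Finset.mem_filter] at he
      obtain ⟨heE, f, hfE, hfe, hd, hor⟩ := he
      obtain ⟨d1, d2⟩ := hdisp e f hd
      have heE' := Finset.mem_product.mp heE
      have hfE' := Finset.mem_product.mp hfE
      have hne : e.1 ≠ f.1 := by
        intro h1
        apply hfe
        rw [h1] at d1 d2
        exact Prod.ext h1.symm (hS0inj _ hfE'.2 _ heE'.2 (by omega) (by omega))
      rw [Finset.mem_image]
      refine ⟨(e, f), ?_, rfl⟩
      rw [Finset.mem_union]
      rcases hor with h1 | h1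
      · left
        simp only [CX, Finset.mem_filter, Finset.mem_product]
        refine ⟨⟨heE, hfE⟩, hne, h1.symm, ?_, ?_⟩
        · omega
        · omega
      · right
        simp only [CY, Finset.mem_filter, Finset.mem_product]
        refine ⟨⟨heE, hfE⟩, hne, h1.symm, ?_, ?_⟩
        · omega
        · omega
    calc (E.filter bad).card ≤ ((CX ∪ CY).image Prod.fst).card := Finset.card_le_card hsub
      _ ≤ (CX ∪ CY).card := Finset.card_image_le
      _ ≤ CX.card + CY.card := Finset.card_union_le _ _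
  have hEcard : E.card = A.card * S0.card := Finset.card_product _ _
  have hgood : E.card ≤ 2 * (E.filter (fun e => ¬ bad e)).card := by
    have h1 := Finset.card_filter_add_card_filter_not (s := E) bad
    have h2 : 4 * (D * (h * S0.card)) ≤ E.card := by
      rw [hEcard]
      calc 4 * (D * (h * S0.card)) = (4 * D * h) * S0.card := by ring
        _ ≤ A.card * S0.card := Nat.mul_le_mul_right _ hbig
    omega
  -- pigeonhole
  obtain ⟨M, hME, hMd, hMcard⟩ : ∃ M ⊆ E.filter (fun e => ¬ bad e), (∀ e ∈ M, ∀ f ∈ M, disp f = disp e) ∧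
      (E.filter (fun e => ¬ bad e)).card ≤ 9 * T ^ 2 * M.card := by
    set G := E.filter (fun e => ¬ bad e) with hG
    let R := Finset.range (3 * T) ×ˢ Finset.range (3 * T)
    rcases G.eq_empty_or_nonempty with hG0 | hG0
    · exact ⟨∅, by simp, by simp, by rw [hG0]; simp⟩
    have hmaps : ∀ e ∈ G, disp e ∈ R := by
      intro e he
      rw [hG, Finset.mem_filter] at he
      have he' := Finset.mem_product.mp he.1
      have h1 := hi' e.2 (hS0S he'.2)
      have h2 := hj' e.2 (hS0S he'.2)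
      simp only [R, disp, Finset.mem_product, Finset.mem_range]
      omega
    obtain ⟨e0, he0⟩ := hG0
    obtain ⟨d, hdR, hdmax⟩ := Finset.exists_max_image R (fun d => (G.filter (fun e => disp e = d)).card)
      ⟨disp e0, hmaps e0 he0⟩
    refine ⟨G.filter (fun e => disp e = d), Finset.filter_subset _ _, ?_, ?_⟩
    · intro e he f hf
      rw [Finset.mem_filter] at he hf
      rw [he.2, hf.2]
    · rw [Finset.card_eq_sum_card_fiberwise hmaps]
      calc ∑ d' ∈ R, (G.filter (fun e => disp e = d')).card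
          ≤ R.card • (G.filter (fun e => disp e = d)).card := Finset.sum_le_card_nsmul _ _ _ hdmax
        _ = 9 * T ^ 2 * (G.filter (fun e => disp e = d)).card := by
            simp only [R, Finset.card_product, Finset.card_range, smul_eq_mul]
            ring
  refine ⟨M, ?_, ?_, ?_, ?_⟩
  · intro e he f hf
    have he1 := Finset.mem_filter.mp (hME he)
    have hf1 := Finset.mem_filter.mp (hME hf)
    have hd := hMd e he f hf
    by_cases hef : f = e
    · subst hef
      exact ⟨by simp, by simp⟩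
    have hnb : ¬ (i f.1 = i e.1 ∨ j f.1 = j e.1) := fun hor => he1.2 ⟨f, hf1.1, hef, hd, hor⟩
    push Not at hnb
    obtain ⟨d1, d2⟩ := hdisp e f hd
    obtain ⟨n1, n2⟩ := hnb
    have mono_i : ∀ p q : Fin n, p ≤ q → i p ≤ i q := fun p q hpq => Nat.div_le_div_right hpq
    have mono_j : ∀ p q : Fin n, σ p ≤ σ q → j p ≤ j q := fun p q hpq => Nat.div_le_div_right hpq
    have mono_i' : ∀ p q : Fin n, p ≤ q → i' p ≤ i' q := fun p q hpq => idx_mono hpq
    have mono_j' : ∀ p q : Fin n, π p ≤ π q → j' p ≤ j' q := fun p q hpq => idx_mono hpq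
    constructor
    · constructor
      · intro hlt
        by_contra hge
        have a1 := mono_i _ _ hlt.le
        have a2 := mono_i' _ _ (not_lt.mp hge)
        omega
      · intro hlt
        by_contra hge
        have a1 := mono_i' _ _ hlt.le
        have a2 := mono_i _ _ (not_lt.mp hge)
        omega
    · constructor
      · intro hlt
        by_contra hge
        have a1 := mono_j _ _ hlt.le
        have a2 := mono_j' _ _ (not_lt.mp hge)
        omega
      · intro hlt
        by_contra hge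
        have a1 := mono_j' _ _ hlt.le
        have a2 := mono_j _ _ (not_lt.mp hge)
        omega
  · intro p hp
    obtain ⟨e, he, rfl⟩ := Finset.mem_image.mp hp
    exact (Finset.mem_product.mp (Finset.mem_filter.mp (hME he)).1).1
  · intro p hp
    obtain ⟨e, he, rfl⟩ := Finset.mem_image.mp hp
    exact hS0S (Finset.mem_product.mp (Finset.mem_filter.mp (hME he)).1).2
  · calc A.card * S.card ≤ A.card * (L * S0.card) := Nat.mul_le_mul_left _ hS0card
      _ = L * E.card := by rw [hEcard]; ring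
      _ ≤ L * (2 * (9 * T ^ 2 * M.card)) := by
          apply Nat.mul_le_mul_left
          omega
      _ = 18 * T ^ 2 * L * M.card := by ring

end Pool.Agent.Helper82.Sim
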